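import Mathlib

/-!
Definitions shared by the parts of the superquadratic lower bound for
permanent versus determinant.
-/

namespace L5helper59.DC

open Finset

variable {R : Type*} [CommRing R]

/-- The linear form `∑ j, a j X_j`. -/
noncomputable def lin {γ : Type*} [Fintype γ] (a : γ → R) : MvPolynomial γ R :=
  ∑ j, MvPolynomial.C (a j) * MvPolynomial.X j

/-- The sum of the coefficients of the squarefree monomials of degree `r`. -/
noncomputable def sqf {γ : Type*} [Fintype γ] [DecidableEq γ] (r : ℕ)
    (P : MvPolynomial γ R) : R :=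
  ∑ C ∈ powersetCard r (univ : Finset γ), MvPolynomial.coeff (∑ j ∈ C, Finsupp.single j 1) P

/-- The elementary symmetric function `e_r` of the linear forms of the rows. -/
noncomputable def esr {ρ γ : Type*} [Fintype γ] (T : Finset ρ) (r : ℕ)
    (y : ρ → γ → R) : MvPolynomial γ R :=
  ∑ S ∈ powersetCard r T, ∏ i ∈ S, lin (y i)

/-- The sum of all `r × r` subpermanents of the matrix `y`. -/
noncomputable def sig {ρ γ : Type*} [Fintype ρ] [Fintype γ] [DecidableEq γ] (r : ℕ)
    (y : ρ → γ → R) : R :=
  sqf r (esr univ r y)

/-- the generic matrix -/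
noncomputable def gen (ρ γ : Type) : ρ → γ → MvPolynomial (ρ × γ) ℂ :=
  fun i j => MvPolynomial.X (i, j)

/-- the types of rows: two permutations of the `q`-th roots of unity -/
abbrev Typ (q : ℕ) := Fin 2 → Equiv.Perm (ZMod q)

/-- the permanent of the generic matrix -/
noncomputable def permPoly (m : ℕ) : MvPolynomial (Fin m × Fin m) ℂ :=
  Matrix.permanent (Matrix.of fun i j => MvPolynomial.X (i, j))

/-- border representation: the permanent is the coefficientwise limit of determinants of
matrices of affine forms of size `M + 1` -/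
def BorderRep (m M : ℕ) : Prop :=
  ∃ A : ℕ → Matrix (Fin (M + 1)) (Fin (M + 1)) (MvPolynomial (Fin m × Fin m) ℂ),
    (∀ k i j, (A k i j).totalDegree ≤ 1) ∧
    ∀ d, Filter.Tendsto (fun k => MvPolynomial.coeff d (A k).det) Filter.atTop
      (nhds (MvPolynomial.coeff d (permPoly m)))

end L5helper59.DC
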