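import Mathlib

/-!
Evaluation of polynomials at dual numbers, and the determinant of a first order
perturbation of a matrix with given kernel and cokernel vectors.
-/

namespace L5helper59.DC

open MvPolynomial

theorem aeval_dual {ι : Type*} [Fintype ι] {R : Type*} [CommRing R] [Algebra ℂ R]
    (p : ι → DualNumber R) (f : MvPolynomial ι ℂ) :
    aeval p f = TrivSqZeroExt.inl (aeval (fun i => (p i).fst) f) +
      TrivSqZeroExt.inr (∑ i, (p i).snd * aeval (fun i => (p i).fst) (pderiv i f)) := by
  classical
  induction f using MvPolynomial.induction_on with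
  | C a =>
    ext
    · simp [TrivSqZeroExt.algebraMap_eq_inl']
    · simp [TrivSqZeroExt.algebraMap_eq_inl']
  | add f g hf hg =>
    rw [map_add, hf, hg]
    ext
    · simp
    · simp [mul_add, Finset.sum_add_distrib]
  | mul_X f j hf =>
    rw [map_mul, hf, aeval_X]
    ext
    · simp
    · simp [Derivation.leibniz, mul_add, Finset.sum_add_distrib, Pi.single_apply, pderiv_X,
        Finset.sum_mul]
      have h1 : ∑ x, (p x).snd * (aeval fun i => (p i).fst) (if j = x then f else 0) =
          (p j).snd * (aeval fun i => (p i).fst) f := by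
        rw [Finset.sum_eq_single j]
        · simp
        · intro b _ hb
          simp [Ne.symm hb]
        · simp
      rw [h1, mul_comm ((p j).snd)]
      congr 1
      refine Finset.sum_congr rfl fun i _ => ?_
      ring

theorem fst_aeval_dual {ι : Type*} [Fintype ι] {R : Type*} [CommRing R] [Algebra ℂ R]
    (p : ι → DualNumber R) (f : MvPolynomial ι ℂ) :
    (aeval p f).fst = aeval (fun i => (p i).fst) f := by
  rw [aeval_dual]; simp

theorem snd_aeval_dual {ι : Type*} [Fintype ι] {R : Type*} [CommRing R] [Algebra ℂ R]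
    (p : ι → DualNumber R) (f : MvPolynomial ι ℂ) :
    (aeval p f).snd = ∑ i, (p i).snd * aeval (fun i => (p i).fst) (pderiv i f) := by
  rw [aeval_dual]; simp

/-- A polynomial of degree at most one has constant partial derivatives. -/
theorem pderiv_of_totalDegree_le_one {ι : Type*} [DecidableEq ι] (P : MvPolynomial ι ℂ)
    (hP : P.totalDegree ≤ 1) (o : ι) :
    pderiv o P = C (coeff (Finsupp.single o 1) P) := by
  ext m
  rw [coeff_C]
  by_cases hm : m = 0
  · subst hm
    rw [coeff_pderiv]
    simp
  · rw [if_neg (Ne.symm hm), coeff_pderiv]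
    have : coeff (m + Finsupp.single o 1) P = 0 := by
      apply coeff_eq_zero_of_totalDegree_lt
      refine lt_of_le_of_lt hP ?_
      have h1 : (m + Finsupp.single o 1).degree = m.degree + 1 := by
        rw [map_add]; simp
      have h2 : m.degree ≠ 0 := by
        intro h
        exact hm ((Finsupp.degree_eq_zero_iff m).1 h)
      have h3 : ∀ k : ι →₀ ℕ, (∑ i ∈ k.support, k i) = k.degree := fun _ => rfl
      rw [h3]
      omega
    rw [this, zero_mul]

open Matrix

/-- the determinant of a matrix over a commutative ring which kills a vector with first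
coordinate one -/
theorem det_eq_zero_of_mulVec {R : Type*} [CommRing R] {m : ℕ}
    (A : Matrix (Fin (m + 1)) (Fin (m + 1)) R) (v : Fin (m + 1) → R) (hv : v 0 = 1)
    (h : A *ᵥ v = 0) : A.det = 0 := by
  have h1 : A.det • v = 0 := by
    have : A.adjugate *ᵥ (A *ᵥ v) = A.det • v := by
      rw [mulVec_mulVec, adjugate_mul, smul_mulVec, one_mulVec]
    rw [← this, h, mulVec_zero]
  have := congrFun h1 0
  simpa [hv] using this

/-- First order perturbation of the determinant at a matrix with kernel vector `v` and
cokernel vector `u` (both with first coordinate one). -/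
theorem snd_det_perturb {R : Type*} [CommRing R] {m : ℕ}
    (A W : Matrix (Fin (m + 1)) (Fin (m + 1)) R) (v u : Fin (m + 1) → R) (hv : v 0 = 1)
    (hu : u 0 = 1) (hAv : A *ᵥ v = 0) (huA : u ᵥ* A = 0) :
    (Matrix.of fun i j => (TrivSqZeroExt.inl (A i j) + TrivSqZeroExt.inr (W i j) :
        DualNumber R)).det =
      TrivSqZeroExt.inr ((u ⬝ᵥ (W *ᵥ v)) * (A.submatrix Fin.succ Fin.succ).det) := by
  classical
  set P : Matrix (Fin (m + 1)) (Fin (m + 1)) R := (1 : Matrix _ _ R).updateCol 0 v with hP
  set Q : Matrix (Fin (m + 1)) (Fin (m + 1)) R := (1 : Matrix _ _ R).updateRow 0 u with hQ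
  have hPdet : P.det = 1 := by
    rw [hP, ← cramer_apply, cramer_one]
    simpa using hv
  have hQdet : Q.det = 1 := by
    rw [hQ, ← det_transpose, ← updateCol_transpose, transpose_one, ← cramer_apply, cramer_one]
    simpa using hu
  set F : R →+* DualNumber R := TrivSqZeroExt.inlHom R R with hF
  set M : Matrix (Fin (m + 1)) (Fin (m + 1)) (DualNumber R) :=
    Matrix.of fun i j => (TrivSqZeroExt.inl (A i j) + TrivSqZeroExt.inr (W i j) :
        DualNumber R) with hM
  have hdet : M.det = (F.mapMatrix Q * M * F.mapMatrix P).det := by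
    rw [det_mul, det_mul, ← RingHom.map_det, ← RingHom.map_det, hPdet, hQdet]
    simp
  have hent : ∀ i j, (F.mapMatrix Q * M * F.mapMatrix P) i j =
      TrivSqZeroExt.inl ((Q * A * P) i j) + TrivSqZeroExt.inr ((Q * W * P) i j) := by
    intro i j
    ext
    · simp [Matrix.mul_apply, hM, hF, TrivSqZeroExt.fst_sum]
    · simp [Matrix.mul_apply, hM, hF, TrivSqZeroExt.snd_sum, mul_comm]
  have hN0 : ∀ j, (Q * A * P) 0 j = 0 := by
    intro j
    have h1 : ∀ k, (Q * A) 0 k = 0 := by
      intro k
      have := congrFun huA k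
      simpa [Matrix.mul_apply, hQ, vecMul, dotProduct] using this
    rw [Matrix.mul_apply]
    exact Finset.sum_eq_zero fun k _ => by rw [h1 k, zero_mul]
  have hN1 : ∀ i, (Q * A * P) i 0 = 0 := by
    intro i
    have h1 : ∀ k, (A * P) k 0 = 0 := by
      intro k
      have := congrFun hAv k
      simpa [Matrix.mul_apply, hP, mulVec, dotProduct] using this
    rw [Matrix.mul_assoc, Matrix.mul_apply]
    exact Finset.sum_eq_zero fun k _ => by rw [h1 k, mul_zero]
  have hN2 : ∀ i j : Fin m, (Q * A * P) i.succ j.succ = A i.succ j.succ := by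
    intro i j
    have h1 : ∀ k, (Q * A) i.succ k = A i.succ k := by
      intro k
      rw [Matrix.mul_apply, Finset.sum_eq_single i.succ]
      · simp [hQ]
      · intro b _ hb
        simp [hQ, Matrix.one_apply_ne (Ne.symm hb)]
      · simp
    rw [Matrix.mul_apply, Finset.sum_eq_single j.succ]
    · rw [h1]
      simp [hP]
    · intro b _ hb
      simp [hP, Matrix.one_apply_ne hb]
    · simp
  have hW0 : (Q * W * P) 0 0 = u ⬝ᵥ (W *ᵥ v) := by
    have h1 : ∀ k, (Q * W) 0 k = (u ᵥ* W) k := by
      intro k
      simp [Matrix.mul_apply, hQ, vecMul, dotProduct]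
    rw [Matrix.mul_apply, dotProduct_mulVec]
    simp [h1, hP, dotProduct]
  have hinr : ∀ (x : R) (y : DualNumber R),
      (TrivSqZeroExt.inr x : DualNumber R) * y = TrivSqZeroExt.inr (x * y.fst) := by
    intro x y
    ext
    · simp
    · simp [mul_comm]
  have hfst : ∀ X : Matrix (Fin m) (Fin m) (DualNumber R),
      (X.det).fst = (X.map fun t => t.fst).det := by
    intro X
    exact RingHom.map_det (TrivSqZeroExt.fstHom R R R : DualNumber R →+* R) X
  rw [hdet, Matrix.det_succ_row_zero, Fin.sum_univ_succ]
  rw [Finset.sum_eq_zero]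
  · rw [hent, hN0, hW0]
    simp only [TrivSqZeroExt.inl_zero, zero_add, Fin.val_zero, pow_zero, one_mul, add_zero]
    rw [hinr, hfst]
    have hs : ((Matrix.submatrix (F.mapMatrix Q * M * F.mapMatrix P) Fin.succ
        (Fin.succAbove 0)).map fun t => t.fst) = A.submatrix Fin.succ Fin.succ := by
      ext i j
      simp only [Matrix.map_apply, Matrix.submatrix_apply, Fin.succAbove_zero]
      rw [hent, ← hN2]
      simp
    rw [hs]
  · intro j _
    rw [hent, hN0]
    simp only [TrivSqZeroExt.inl_zero, zero_add]
    rw [mul_assoc, hinr, hfst]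
    have hz : ((Matrix.submatrix (F.mapMatrix Q * M * F.mapMatrix P) Fin.succ
        (Fin.succAbove j.succ)).map fun t => t.fst).det = 0 := by
      cases m with
      | zero => exact j.elim0
      | succ m =>
        apply Matrix.det_eq_zero_of_column_eq_zero 0
        intro i
        simp only [Matrix.map_apply, Matrix.submatrix_apply]
        rw [Fin.succAbove_of_castSucc_lt _ _ (by simp [Fin.castSucc_zero]), Fin.castSucc_zero,
          hent, hN1]
        simp
    rw [hz]
    simp

end L5helper59.DC
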