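import Pool.Agent.L5helper18.DC.Bezout
import Pool.Agent.L5helper62.DC.Normalize
import Pool.Agent.L5helper59.DC.Dual

/-!
The upper bound for the number of nondegenerate points of `{F = 0, ∂_w F = 0}` when `F` is the
determinant of a matrix of affine forms.
-/

set_option linter.unusedSectionVars false

namespace L5helper59.DC

open MvPolynomial Matrix

section WD

variable {V : Type*} [Fintype V] [DecidableEq V]

/-- weighted degree at most `D` -/
def WD (wt : V → ℕ) (D : ℕ) (P : MvPolynomial V ℂ) : Prop :=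
  ∀ m ∈ P.support, ∑ i, m i * wt i ≤ D

theorem WD.mono {wt : V → ℕ} {D D' : ℕ} {P : MvPolynomial V ℂ} (h : WD wt D P) (hD : D ≤ D') :
    WD wt D' P := fun m hm => (h m hm).trans hD

theorem WD.sum {wt : V → ℕ} {D : ℕ} {α : Type*} (s : Finset α) (P : α → MvPolynomial V ℂ)
    (h : ∀ a ∈ s, WD wt D (P a)) : WD wt D (∑ a ∈ s, P a) := by
  intro m hm
  classical
  have := MvPolynomial.support_sum hm
  rw [Finset.mem_biUnion] at this
  obtain ⟨a, ha, hma⟩ := this
  exact h a ha m hma

theorem WD.mul {wt : V → ℕ} {D D' : ℕ} {P Q : MvPolynomial V ℂ} (h : WD wt D P)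
    (h' : WD wt D' Q) : WD wt (D + D') (P * Q) := by
  intro m hm
  have := MvPolynomial.support_mul _ _ hm
  rw [Finset.mem_add] at this
  obtain ⟨m1, h1, m2, h2, rfl⟩ := this
  have e : ∑ i, (m1 + m2) i * wt i = ∑ i, m1 i * wt i + ∑ i, m2 i * wt i := by
    rw [← Finset.sum_add_distrib]
    exact Finset.sum_congr rfl fun i _ => by rw [Finsupp.add_apply, add_mul]
  rw [e]
  exact Nat.add_le_add (h m1 h1) (h' m2 h2)

theorem WD.C {wt : V → ℕ} (c : ℂ) : WD wt 0 (MvPolynomial.C c : MvPolynomial V ℂ) := by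
  intro m hm
  have : m = 0 := by
    by_contra h
    rw [MvPolynomial.mem_support_iff, MvPolynomial.coeff_C, if_neg (Ne.symm h)] at hm
    exact hm rfl
  subst this
  simp

theorem WD.X {wt : V → ℕ} (v : V) : WD wt (wt v) (MvPolynomial.X v : MvPolynomial V ℂ) := by
  intro m hm
  have : m = Finsupp.single v 1 := by
    have := MvPolynomial.support_X (R := ℂ) (n := v)
    rw [this] at hm
    simpa using hm
  subst this
  rw [Finset.sum_eq_single v]
  · simp
  · intro b _ hb
    simp [Ne.symm hb]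
  · simp

end WD

/-- an affine polynomial is `C (coeff 0) + ∑ C (coeff o) X_o` -/
theorem affine_eq {ι : Type*} [Fintype ι] [DecidableEq ι] (P : MvPolynomial ι ℂ)
    (hP : P.totalDegree ≤ 1) :
    P = C (coeff 0 P) + ∑ o, C (coeff (Finsupp.single o 1) P) * X o := by
  ext m
  rw [coeff_add, coeff_C, coeff_sum]
  have hX : ∀ o, coeff m (C (coeff (Finsupp.single o 1) P) * X o : MvPolynomial ι ℂ) =
      if Finsupp.single o 1 = m then coeff (Finsupp.single o 1) P else 0 := by
    intro o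
    rw [coeff_C_mul, coeff_X]
    split_ifs <;> simp
  simp_rw [hX]
  by_cases hm : m = 0
  · subst hm
    rw [if_pos rfl, Finset.sum_eq_zero, add_zero]
    intro o _
    rw [if_neg]
    intro h
    have := congrFun (congrArg (fun f : ι →₀ ℕ => (f : ι → ℕ)) h) o
    simp at this
  · rw [if_neg (Ne.symm hm), zero_add]
    by_cases h1 : ∃ o, Finsupp.single o 1 = m
    · obtain ⟨o, ho⟩ := h1
      subst ho
      rw [Finset.sum_eq_single o]
      · simp
      · intro b _ hb
        rw [if_neg]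
        intro h
        exact hb (Finsupp.single_left_injective one_ne_zero h)
      · simp
    · rw [Finset.sum_eq_zero]
      · apply coeff_eq_zero_of_totalDegree_lt
        refine lt_of_le_of_lt hP ?_
        have h3 : ∀ k : ι →₀ ℕ, (∑ i ∈ k.support, k i) = k.degree := fun _ => rfl
        rw [h3]
        by_contra hlt
        have h4 : m.degree ≤ 1 := by omega
        have h5 : m.degree ≠ 0 := fun h => hm ((Finsupp.degree_eq_zero_iff m).1 h)
        have h6 : m.degree = 1 := by omega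
        have h7 : m ∈ {a : ι →₀ ℕ | a.degree = 1} := h6
        rw [← Finsupp.range_single_one] at h7
        obtain ⟨o, ho⟩ := h7
        exact h1 ⟨o, ho⟩
      · intro o _
        rw [if_neg]
        exact fun h => h1 ⟨o, h⟩

section System

variable {ι κ : Type} [Fintype ι] [Fintype κ] [DecidableEq ι] [DecidableEq κ] {m : ℕ}

/-- the linear part, in direction `w`, of a matrix of affine forms -/
noncomputable def LW (A : Matrix (Fin (m + 1)) (Fin (m + 1)) (MvPolynomial ι ℂ)) (w : ι → ℂ) :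
    Matrix (Fin (m + 1)) (Fin (m + 1)) ℂ :=
  Matrix.of fun i j => ∑ o, w o * coeff (Finsupp.single o 1) (A i j)

/-- the variables `x, v, u` -/
abbrev Vr (ι : Type) (m : ℕ) := ι ⊕ (Fin m ⊕ Fin m)

/-- the vector `(1, v)` -/
noncomputable def vB (ι : Type) (m : ℕ) : Fin (m + 1) → MvPolynomial (Vr ι m) ℂ :=
  Fin.cons 1 fun i => X (Sum.inr (Sum.inl i))

/-- the vector `(1, u)` -/
noncomputable def uB (ι : Type) (m : ℕ) : Fin (m + 1) → MvPolynomial (Vr ι m) ℂ :=
  Fin.cons 1 fun i => X (Sum.inr (Sum.inr i))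

/-- the system `A(x) v = 0`, `(uᵀ A(x))_l = 0` for `l ≥ 1`, `uᵀ A_w v = 0` -/
noncomputable def sys (A : Matrix (Fin (m + 1)) (Fin (m + 1)) (MvPolynomial ι ℂ))
    (w : κ → ι → ℂ) : Fin (m + 1) ⊕ (Fin m ⊕ κ) → MvPolynomial (Vr ι m) ℂ
  | Sum.inl i => ∑ j, rename Sum.inl (A i j) * vB ι m j
  | Sum.inr (Sum.inl l) => ∑ i, uB ι m i * rename Sum.inl (A i l.succ)
  | Sum.inr (Sum.inr e) => ∑ i, ∑ j, uB ι m i * C (LW A (w e) i j) * vB ι m j

variable {S : Type*} [CommRing S] [Algebra ℂ S]

theorem aeval_vB (P : Vr ι m → S) (j : Fin (m + 1)) :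
    aeval P (vB ι m j) = (Fin.cons 1 fun i => P (Sum.inr (Sum.inl i)) : Fin (m + 1) → S) j := by
  refine Fin.cases ?_ (fun i => ?_) j
  · simp [vB]
  · simp [vB]

theorem aeval_uB (P : Vr ι m → S) (j : Fin (m + 1)) :
    aeval P (uB ι m j) = (Fin.cons 1 fun i => P (Sum.inr (Sum.inr i)) : Fin (m + 1) → S) j := by
  refine Fin.cases ?_ (fun i => ?_) j
  · simp [uB]
  · simp [uB]

theorem det_perturb (A : Matrix (Fin (m + 1)) (Fin (m + 1)) (MvPolynomial ι ℂ))
    (hA : ∀ i j, (A i j).totalDegree ≤ 1) (w : ι → ℂ) (x : ι → S) (v u : Fin (m + 1) → S)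
    (hv : v 0 = 1) (hu : u 0 = 1) (hAv : (A.map (aeval x)) *ᵥ v = 0)
    (huA : u ᵥ* (A.map (aeval x)) = 0) :
    aeval x A.det = 0 ∧ ∑ o, algebraMap ℂ S (w o) * aeval x (pderiv o A.det) =
      (u ⬝ᵥ (((LW A w).map (algebraMap ℂ S)) *ᵥ v)) *
        ((A.map (aeval x)).submatrix Fin.succ Fin.succ).det := by
  set x' : ι → DualNumber S := fun o =>
    TrivSqZeroExt.inl (x o) + TrivSqZeroExt.inr (algebraMap ℂ S (w o)) with hx'
  have h1 : aeval x' A.det = (Matrix.of fun i j => (TrivSqZeroExt.inl (A.map (aeval x) i j) +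
      TrivSqZeroExt.inr ((LW A w).map (algebraMap ℂ S) i j) : DualNumber S)).det := by
    rw [AlgHom.map_det]
    congr 1
    ext i j
    · simp [aeval_dual, hx']
    · simp only [AlgHom.mapMatrix_apply, Matrix.map_apply, Matrix.of_apply, snd_aeval_dual, hx',
        TrivSqZeroExt.snd_add, TrivSqZeroExt.snd_inl, TrivSqZeroExt.snd_inr, zero_add,
        TrivSqZeroExt.fst_add, TrivSqZeroExt.fst_inl, TrivSqZeroExt.fst_inr, add_zero]
      simp only [pderiv_of_totalDegree_le_one _ (hA i j), LW, Matrix.of_apply, map_sum, map_mul,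
        aeval_C]
  rw [snd_det_perturb _ _ v u hv hu hAv huA] at h1
  constructor
  · have := congrArg TrivSqZeroExt.fst h1
    simpa [fst_aeval_dual, hx'] using this
  · have := congrArg TrivSqZeroExt.snd h1
    rw [snd_aeval_dual] at this
    simpa only [hx', TrivSqZeroExt.snd_add, TrivSqZeroExt.snd_inl, TrivSqZeroExt.snd_inr,
      zero_add, TrivSqZeroExt.fst_add, TrivSqZeroExt.fst_inl, TrivSqZeroExt.fst_inr,
      add_zero] using this

theorem aeval_sys_inl (A : Matrix (Fin (m + 1)) (Fin (m + 1)) (MvPolynomial ι ℂ))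
    (w : κ → ι → ℂ) (P : Vr ι m → S) (i : Fin (m + 1)) :
    aeval P (sys A w (Sum.inl i)) = ((A.map (aeval (P ∘ Sum.inl))) *ᵥ
      (Fin.cons 1 fun i => P (Sum.inr (Sum.inl i)) : Fin (m + 1) → S)) i := by
  simp only [sys, map_sum, map_mul, aeval_vB, aeval_rename, mulVec, dotProduct, Matrix.map_apply]

theorem aeval_sys_inr_inl (A : Matrix (Fin (m + 1)) (Fin (m + 1)) (MvPolynomial ι ℂ))
    (w : κ → ι → ℂ) (P : Vr ι m → S) (l : Fin m) :
    aeval P (sys A w (Sum.inr (Sum.inl l))) = ((Fin.cons 1 fun i => P (Sum.inr (Sum.inr i)) :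
      Fin (m + 1) → S) ᵥ* (A.map (aeval (P ∘ Sum.inl)))) l.succ := by
  simp only [sys, map_sum, map_mul, aeval_uB, aeval_rename, vecMul, dotProduct, Matrix.map_apply]

theorem aeval_sys_inr_inr (A : Matrix (Fin (m + 1)) (Fin (m + 1)) (MvPolynomial ι ℂ))
    (w : κ → ι → ℂ) (P : Vr ι m → S) (e : κ) :
    aeval P (sys A w (Sum.inr (Sum.inr e))) =
      (Fin.cons 1 fun i => P (Sum.inr (Sum.inr i)) : Fin (m + 1) → S) ⬝ᵥ
      (((LW A (w e)).map (algebraMap ℂ S)) *ᵥ
      (Fin.cons 1 fun i => P (Sum.inr (Sum.inl i)) : Fin (m + 1) → S)) := by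
  simp only [sys, map_sum, map_mul, aeval_uB, aeval_vB, aeval_C, mulVec, dotProduct,
    Matrix.map_apply, Finset.mul_sum]
  refine Finset.sum_congr rfl fun i _ => Finset.sum_congr rfl fun j _ => ?_
  ring

/-- a vector killed on the right and in all but the first coordinate on the left is killed -/
theorem vecMul_eq_zero_of_succ (A : Matrix (Fin (m + 1)) (Fin (m + 1)) S)
    (v u : Fin (m + 1) → S) (hv : v 0 = 1) (hAv : A *ᵥ v = 0)
    (h : ∀ l : Fin m, (u ᵥ* A) l.succ = 0) : u ᵥ* A = 0 := by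
  have h0 : (u ᵥ* A) ⬝ᵥ v = 0 := by
    rw [← dotProduct_mulVec, hAv, dotProduct_zero]
  rw [dotProduct, Fin.sum_univ_succ, hv, mul_one] at h0
  have h1 : ∑ i : Fin m, (u ᵥ* A) i.succ * v i.succ = 0 :=
    Finset.sum_eq_zero fun i _ => by rw [h i, zero_mul]
  rw [h1, add_zero] at h0
  ext j
  refine Fin.cases ?_ (fun i => ?_) j
  · simpa using h0
  · simpa using h i

/-- If the gradient of `F` vanishes at `p` then `p` is degenerate. -/
theorem exists_pderiv_ne_zero (hcard : Fintype.card ι = Fintype.card κ + 1)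
    (F : MvPolynomial ι ℂ) (w : κ → ι → ℂ) (p : ι → ℂ)
    (hnd : ∀ z : ι → ℂ, ∑ i, z i * eval p (pderiv i F) = 0 →
      (∀ e, ∑ i, ∑ j, z j * w e i * eval p (pderiv j (pderiv i F)) = 0) → z = 0) :
    ∃ o, eval p (pderiv o F) ≠ 0 := by
  by_contra hcon
  push Not at hcon
  let L : (ι → ℂ) →ₗ[ℂ] (κ → ℂ) :=
    { toFun := fun z e => ∑ i, ∑ j, z j * w e i * eval p (pderiv j (pderiv i F))
      map_add' := by
        intro z z'
        ext e
        simp only [Pi.add_apply, ← Finset.sum_add_distrib, add_mul]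
      map_smul' := by
        intro c z
        ext e
        simp only [Pi.smul_apply, smul_eq_mul, Finset.mul_sum, RingHom.id_apply]
        refine Finset.sum_congr rfl fun i _ => Finset.sum_congr rfl fun j _ => ?_
        ring }
  have hk : LinearMap.ker L ≠ ⊥ := by
    apply LinearMap.ker_ne_bot_of_finrank_lt
    rw [Module.finrank_fintype_fun_eq_card, Module.finrank_fintype_fun_eq_card]
    omega
  obtain ⟨z, hz, hz0⟩ := (Submodule.ne_bot_iff _).1 hk
  refine hz0 (hnd z (Finset.sum_eq_zero fun i _ => by rw [hcon i, mul_zero]) fun e => ?_)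
  have := congrFun (LinearMap.mem_ker.1 hz) e
  simpa [L] using this

/-- The point of the big system over a nondegenerate point is a nondegenerate zero. -/
theorem sys_point (hcard : Fintype.card ι = Fintype.card κ + 1)
    (A : Matrix (Fin (m + 1)) (Fin (m + 1)) (MvPolynomial ι ℂ))
    (hA : ∀ i j, (A i j).totalDegree ≤ 1) (w : κ → ι → ℂ) (p : ι → ℂ)
    (v u : Fin (m + 1) → ℂ) (hv : v 0 = 1) (hu : u 0 = 1)
    (hAv : (A.map (eval p)) *ᵥ v = 0) (huA : u ᵥ* (A.map (eval p)) = 0)
    (h1 : ∀ e, ∑ i, w e i * eval p (pderiv i A.det) = 0)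
    (hnd : ∀ z : ι → ℂ, ∑ i, z i * eval p (pderiv i A.det) = 0 →
      (∀ e, ∑ i, ∑ j, z j * w e i * eval p (pderiv j (pderiv i A.det)) = 0) → z = 0) :
    (∀ j, eval (Sum.elim p (Sum.elim (fun i => v i.succ) fun i => u i.succ)) (sys A w j) = 0) ∧
    ∀ z : Vr ι m → ℂ, (∀ j, ∑ i, z i * eval (Sum.elim p (Sum.elim (fun i => v i.succ)
      fun i => u i.succ)) (pderiv i (sys A w j)) = 0) → z = 0 := by
  set P : Vr ι m → ℂ := Sum.elim p (Sum.elim (fun i => v i.succ) fun i => u i.succ) with hP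
  have hev : ∀ (p : ι → ℂ) (f : MvPolynomial ι ℂ), aeval p f = eval p f := fun p f => by
    rw [← coe_aeval_eq_eval]; rfl
  have hev' : ∀ (f : MvPolynomial (Vr ι m) ℂ), aeval P f = eval P f := fun f => by
    rw [← coe_aeval_eq_eval]; rfl
  have hAe : A.map (aeval p) = A.map (eval p) := by
    ext i j
    simp [Matrix.map_apply]
  have hPv : (Fin.cons 1 fun i => P (Sum.inr (Sum.inl i)) : Fin (m + 1) → ℂ) = v := by
    ext j
    refine Fin.cases ?_ (fun i => ?_) j
    · simp [hv]
    · simp [hP]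
  have hPu : (Fin.cons 1 fun i => P (Sum.inr (Sum.inr i)) : Fin (m + 1) → ℂ) = u := by
    ext j
    refine Fin.cases ?_ (fun i => ?_) j
    · simp [hu]
    · simp [hP]
  have hPx : P ∘ Sum.inl = p := by
    ext i
    simp [hP]
  -- the minor is nonzero
  have hdet : ∀ w' : ι → ℂ, ∑ o, w' o * eval p (pderiv o A.det) =
      (u ⬝ᵥ ((LW A w') *ᵥ v)) * ((A.map (eval p)).submatrix Fin.succ Fin.succ).det := by
    intro w'
    have := (det_perturb A hA w' p v u hv hu (by rw [hAe]; exact hAv)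
      (by rw [hAe]; exact huA)).2
    simpa [hev, hAe] using this
  obtain ⟨o, ho⟩ := exists_pderiv_ne_zero hcard A.det w p hnd
  have hB : ((A.map (eval p)).submatrix Fin.succ Fin.succ).det ≠ 0 := by
    intro h0
    have := hdet (Pi.single o 1)
    rw [h0, mul_zero] at this
    simp [Pi.single_apply] at this
    exact ho this
  have hzero : ∀ j, eval P (sys A w j) = 0 := by
    intro j
    rw [← hev']
    rcases j with i | l | e
    · rw [aeval_sys_inl, hPv, hPx, hAe, hAv]
      rfl
    · rw [aeval_sys_inr_inl, hPu, hPx, hAe, huA]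
      rfl
    · rw [aeval_sys_inr_inr, hPv, hPu]
      have h2 := hdet (w e)
      rw [h1 e] at h2
      have h3 := (mul_eq_zero.1 h2.symm).resolve_right hB
      simpa using h3
  refine ⟨hzero, ?_⟩
  · intro z hz
    -- the dual number point
    set Q : Vr ι m → DualNumber ℂ := fun i => TrivSqZeroExt.inl (P i) + TrivSqZeroExt.inr (z i)
      with hQ
    have hQfst : (fun i => (Q i).fst) = P := by
      ext i
      simp [hQ]
    have hQz : ∀ j, aeval Q (sys A w j) = 0 := by
      intro j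
      rw [aeval_dual, hQfst, hev', hzero j]
      have h2 : ∑ i, (Q i).snd * aeval P (pderiv i (sys A w j)) = 0 := by
        rw [← hz j]
        refine Finset.sum_congr rfl fun i _ => ?_
        rw [hev']
        simp [hQ]
      rw [h2]
      simp
    set Qx : ι → DualNumber ℂ := Q ∘ Sum.inl with hQx
    set vv : Fin (m + 1) → DualNumber ℂ := Fin.cons 1 fun i => Q (Sum.inr (Sum.inl i)) with hvv
    set uu : Fin (m + 1) → DualNumber ℂ := Fin.cons 1 fun i => Q (Sum.inr (Sum.inr i)) with huu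
    have hvv0 : vv 0 = 1 := by simp [hvv]
    have huu0 : uu 0 = 1 := by simp [huu]
    have hAvv : (A.map (aeval Qx)) *ᵥ vv = 0 := by
      ext1 i
      rw [← aeval_sys_inl A w Q i, hQz]
      rfl
    have huuA : uu ᵥ* (A.map (aeval Qx)) = 0 := by
      refine vecMul_eq_zero_of_succ _ vv uu hvv0 hAvv fun l => ?_
      rw [← aeval_sys_inr_inl A w Q l, hQz]
    have hQxfst : (fun i => (Qx i).fst) = p := by
      ext i
      simp [hQx, hQ, hP]
    have hQxsnd : ∀ i, (Qx i).snd = z (Sum.inl i) := by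
      intro i
      simp [hQx, hQ]
    have hzx : (fun i => z (Sum.inl i)) = 0 := by
      refine hnd _ ?_ ?_
      · have h2 := (det_perturb A hA 0 Qx vv uu hvv0 huu0 hAvv huuA).1
        have h3 := congrArg TrivSqZeroExt.snd h2
        rw [snd_aeval_dual, hQxfst] at h3
        simpa only [hQxsnd, hev, TrivSqZeroExt.snd_zero] using h3
      · intro e
        have h2 := (det_perturb A hA (w e) Qx vv uu hvv0 huu0 hAvv huuA).2
        rw [← aeval_sys_inr_inr A w Q e, hQz, zero_mul] at h2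
        have h3 := congrArg TrivSqZeroExt.snd h2
        rw [TrivSqZeroExt.snd_sum, TrivSqZeroExt.snd_zero] at h3
        rw [← h3]
        refine Finset.sum_congr rfl fun i _ => ?_
        rw [TrivSqZeroExt.algebraMap_eq_inl', TrivSqZeroExt.snd_mul, snd_aeval_dual, hQxfst]
        simp only [hQxsnd, hev, TrivSqZeroExt.snd_inl, TrivSqZeroExt.fst_inl, smul_eq_mul,
          Algebra.algebraMap_self, RingHom.id_apply]
        rw [smul_zero, add_zero, Finset.mul_sum]
        refine Finset.sum_congr rfl fun j _ => ?_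
        ring
    have hQxi : ∀ f : MvPolynomial ι ℂ, aeval Qx f = TrivSqZeroExt.inl (eval p f) := by
      intro f
      rw [aeval_dual, hQxfst, hev]
      have : ∑ i, (Qx i).snd * aeval p (pderiv i f) = 0 := by
        refine Finset.sum_eq_zero fun i _ => ?_
        have h5 := congrFun hzx i
        simp only [Pi.zero_apply] at h5
        rw [hQxsnd, h5, zero_mul]
      rw [this]
      simp
    have hzv : (fun i => z (Sum.inr (Sum.inl i))) = 0 := by
      apply Matrix.eq_zero_of_mulVec_eq_zero hB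
      ext1 i
      have h2 := congrArg TrivSqZeroExt.snd (congrFun hAvv i.succ)
      rw [mulVec, dotProduct, TrivSqZeroExt.snd_sum, Fin.sum_univ_succ] at h2
      simp only [Matrix.map_apply, hQxi, hvv, Fin.cons_zero, Fin.cons_succ, hQ] at h2
      simpa [mulVec, dotProduct] using h2
    have hzu : (fun i => z (Sum.inr (Sum.inr i))) = 0 := by
      apply Matrix.eq_zero_of_vecMul_eq_zero hB
      ext1 i
      have h2 := congrArg TrivSqZeroExt.snd (congrFun huuA i.succ)
      rw [vecMul, dotProduct, TrivSqZeroExt.snd_sum, Fin.sum_univ_succ] at h2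
      simp only [Matrix.map_apply, hQxi, huu, Fin.cons_zero, Fin.cons_succ, hQ] at h2
      simpa [vecMul, dotProduct, mul_comm] using h2
    ext i
    rcases i with i | i | i
    · exact congrFun hzx i
    · exact congrFun hzv i
    · exact congrFun hzu i

/-- the weights of the variables -/
def wts (ι : Type) (m a b : ℕ) : Vr ι m → ℕ := Sum.elim (fun _ => a) fun _ => b

theorem WD_vB (a b : ℕ) (j : Fin (m + 1)) : WD (wts ι m a b) b (vB ι m j) := by
  refine Fin.cases ?_ (fun i => ?_) j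
  · have : vB ι m 0 = MvPolynomial.C 1 := by simp [vB]
    rw [this]
    exact (WD.C 1).mono (Nat.zero_le _)
  · have : vB ι m i.succ = MvPolynomial.X (Sum.inr (Sum.inl i)) := by simp [vB]
    rw [this]
    exact WD.X _

theorem WD_uB (a b : ℕ) (j : Fin (m + 1)) : WD (wts ι m a b) b (uB ι m j) := by
  refine Fin.cases ?_ (fun i => ?_) j
  · have : uB ι m 0 = MvPolynomial.C 1 := by simp [uB]
    rw [this]
    exact (WD.C 1).mono (Nat.zero_le _)
  · have : uB ι m i.succ = MvPolynomial.X (Sum.inr (Sum.inr i)) := by simp [uB]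
    rw [this]
    exact WD.X _

theorem WD.add {V : Type*} [Fintype V] [DecidableEq V] {wt : V → ℕ} {D : ℕ}
    {P Q : MvPolynomial V ℂ} (h : WD wt D P) (h' : WD wt D Q) : WD wt D (P + Q) := by
  intro k hk
  rcases Finset.mem_union.1 (MvPolynomial.support_add hk) with h1 | h1
  · exact h k h1
  · exact h' k h1

theorem WD_rename (a b : ℕ) (P : MvPolynomial ι ℂ) (hP : P.totalDegree ≤ 1) :
    WD (wts ι m a b) a (rename Sum.inl P) := by
  rw [affine_eq P hP, map_add, map_sum, rename_C]
  refine WD.add ((WD.C _).mono (Nat.zero_le _)) (WD.sum _ _ fun o _ => ?_)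
  rw [map_mul, rename_C, rename_X]
  have := (WD.C (wt := wts ι m a b) (coeff (Finsupp.single o 1) P)).mul
    (WD.X (wt := wts ι m a b) (Sum.inl o))
  rw [zero_add] at this
  exact this

/-- the degrees of the system -/
def dgs (κ : Type) (m a b : ℕ) : Fin (m + 1) ⊕ (Fin m ⊕ κ) → ℕ :=
  Sum.elim (fun _ => a + b) (Sum.elim (fun _ => a + b) fun _ => 2 * b)

theorem WD_sys (A : Matrix (Fin (m + 1)) (Fin (m + 1)) (MvPolynomial ι ℂ))
    (hA : ∀ i j, (A i j).totalDegree ≤ 1) (w : κ → ι → ℂ) (a b : ℕ)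
    (j : Fin (m + 1) ⊕ (Fin m ⊕ κ)) : WD (wts ι m a b) (dgs κ m a b j) (sys A w j) := by
  rcases j with i | l | e
  · exact WD.sum _ _ fun j _ => (WD_rename a b _ (hA i j)).mul (WD_vB a b j)
  · refine WD.sum _ _ fun j _ => ?_
    have := (WD_uB a b j).mul (WD_rename (m := m) a b _ (hA j l.succ))
    exact this.mono (by simp [dgs, add_comm])
  · refine WD.sum _ _ fun i _ => WD.sum _ _ fun j _ => ?_
    have := ((WD_uB a b i).mul (WD.C (wt := wts ι m a b) (LW A (w e) i j))).mul
      (WD_vB (ι := ι) (m := m) a b j)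
    exact this.mono (by simp [dgs]; omega)

theorem card_nondeg_le (hcard : Fintype.card ι = Fintype.card κ + 1) (m : ℕ)
    (F : MvPolynomial ι ℂ)
    (A : Matrix (Fin (m + 1)) (Fin (m + 1)) (MvPolynomial ι ℂ))
    (hA : ∀ i j, (A i j).totalDegree ≤ 1) (hdet : A.det = F)
    (w : κ → ι → ℂ) (S : Finset (ι → ℂ)) (h0 : ∀ p ∈ S, eval p F = 0)
    (h1 : ∀ p ∈ S, ∀ e, ∑ i, w e i * eval p (pderiv i F) = 0)
    (hnd : ∀ p ∈ S, ∀ z : ι → ℂ, ∑ i, z i * eval p (pderiv i F) = 0 →
      (∀ e, ∑ i, ∑ j, z j * w e i * eval p (pderiv j (pderiv i F)) = 0) → z = 0)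
    (a b : ℕ) (ha : 1 ≤ a) (hb : 1 ≤ b) :
    S.card * (a ^ Fintype.card ι * b ^ (2 * m)) ≤
      (a + b) ^ (2 * m + 1) * (2 * b) ^ Fintype.card κ := by
  classical
  subst hdet
  obtain ⟨A', hA', hdet', hvu⟩ := L5helper62.DC.normalize A hA S h0
  rw [← hdet'] at h1 hnd
  choose! v u hv hu hAv huA using hvu
  set Φ : (ι → ℂ) → (Vr ι m → ℂ) := fun p =>
    Sum.elim p (Sum.elim (fun i => v p i.succ) fun i => u p i.succ) with hΦ
  have hΦinj : Function.Injective Φ := by
    intro p p' hpp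
    ext i
    exact congrFun hpp (Sum.inl i)
  have key := fun p (hp : p ∈ S) => sys_point hcard A' hA' w p (v p) (u p) (hv p hp) (hu p hp)
    (hAv p hp) (huA p hp) (h1 p hp) (hnd p hp)
  have hb := Pool.Agent.L5helper18.DC.weighted_bezout (K := ℂ) (ι := Vr ι m)
    (κ := Fin (m + 1) ⊕ (Fin m ⊕ κ))
    (by simp only [Fintype.card_sum, Fintype.card_fin]; omega) (wts ι m a b)
    (by rintro (i | i) <;> simpa [wts]) (dgs κ m a b)
    (by rintro (i | i | i) <;> simp [dgs] <;> omega) (sys A' w)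
    (fun j => WD_sys A' hA' w a b j) (S.image Φ)
    (by
      intro P hP j
      obtain ⟨p, hp, rfl⟩ := Finset.mem_image.1 hP
      exact (key p hp).1 j)
    (by
      intro P hP z hz
      obtain ⟨p, hp, rfl⟩ := Finset.mem_image.1 hP
      exact (key p hp).2 z hz)
  rw [Finset.card_image_of_injective _ hΦinj] at hb
  have e1 : ∏ i, wts ι m a b i = a ^ Fintype.card ι * b ^ (2 * m) := by
    rw [Fintype.prod_sum_type]
    simp only [wts, Sum.elim_inl, Sum.elim_inr, Finset.prod_const, Finset.card_univ,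
      Fintype.card_sum, Fintype.card_fin]
    ring
  have e2 : ∏ j, dgs κ m a b j = (a + b) ^ (2 * m + 1) * (2 * b) ^ Fintype.card κ := by
    rw [Fintype.prod_sum_type, Fintype.prod_sum_type]
    simp only [dgs, Sum.elim_inl, Sum.elim_inr, Finset.prod_const, Finset.card_univ,
      Fintype.card_fin]
    ring
  rw [e1, e2] at hb
  exact hb

end System

end L5helper59.DC
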