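import Pool.Agent.L5helper67.DC.Assembled
import Pool.Agent.L5helper20.DG.Gadget
import Pool.Agent.L5helper61.DC.Block
import Pool.Agent.L5helper18.DC.Persist

/-!
All parts put together: the inequality between the number of critical points and the size of a
(border) determinantal representation of the permanent.
-/

namespace L5helper59.DC

open Finset MvPolynomial

theorem assembly : ∃ B : ℕ → Finset ℕ, (∀ q, (B q).card ≤ (q.factorial) ^ 2 * (2 * q)) ∧
    ∀ q n κ m M, 2 ≤ q → 2 ≤ n → n ∉ B q → 1 ≤ κ →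
      m + (q + 1) = n * (q.factorial) ^ 2 + (κ + 1) * (2 * q) → BorderRep m M →
      ∀ a b : ℕ, 1 ≤ a → 1 ≤ b →
      (((q.factorial) ^ 2).factorial) ^ (n * κ) *
          (a ^ (κ * (n * (q.factorial) ^ 2 * (2 * q)) + 1) * b ^ (2 * M)) ≤
        (a + b) ^ (2 * M + 1) * (2 * b) ^ (κ * (n * (q.factorial) ^ 2 * (2 * q))) :=
  L5helper67.DC.assembly_two
    (fun κ r hκ hr ρ γ _ _ _ _ hρ hγ => Pool.Agent.L5helper20.DG.gadget κ r hκ hr ρ γ hρ hγ)
    (fun q _ hq => L5helper61.DC.block_points q hq)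
    (fun hcard F Fk D hdeg hlim w S h0 h1 hnd =>
      Pool.Agent.L5helper18.DC.persist hcard F Fk D hdeg hlim w S h0 h1 hnd)

end L5helper59.DC
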