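import Pool.Agent.L5helper59.DC.Chain
import Pool.Agent.L5helper96.DC.Arith
import Pool.Agent.L5helper96.DC.LogForm

/-!
The superquadratic lower bound for the (border) determinantal complexity of the permanent.
-/

namespace L5helper59.DC

open Finset MvPolynomial Filter Topology

theorem border_nat (q m M : ℕ) (hq : 5 ≤ q) (hm : q.factorial ^ 5 ≤ m) (H : BorderRep m M) :
    q * m ^ 2 ≤ 160 * (M + 1) := by
  obtain ⟨B, hB, h⟩ := assembly
  exact L5helper96.DC.final_arith BorderRep
    (fun m m' M h H => L5helper67.DC.borderRep_mono m m' M h H) B hB h q m M hq hm H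

theorem border_log (m M : ℕ) (hm : 120 ^ 5 ≤ m) (H : BorderRep m M) :
    (m : ℝ) ^ 2 * Real.log m / (960 * Real.log (Real.log m)) ≤ (M : ℝ) + 1 :=
  L5helper96.DC.log_form BorderRep border_nat m M hm H

/-- The border bound, all sizes. -/
theorem border_bound (m n : ℕ) (hm : 120 ^ 5 ≤ m)
    (A : ℕ → Matrix (Fin n) (Fin n) (MvPolynomial (Fin m × Fin m) ℂ))
    (hA : ∀ k i j, (A k i j).totalDegree ≤ 1)
    (hlim : ∀ d, Tendsto (fun k => coeff d (A k).det) atTop
      (𝓝 (coeff d (Matrix.permanent (Matrix.of fun i j : Fin m =>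
        (X (i, j) : MvPolynomial (Fin m × Fin m) ℂ)))))) :
    (m : ℝ) ^ 2 * Real.log m / (960 * Real.log (Real.log m)) ≤ n := by
  cases n with
  | zero =>
    exfalso
    have h0 := hlim 0
    have h1 : (fun k => coeff 0 (A k).det) = fun _ => (1 : ℂ) := by
      funext k
      rw [Matrix.det_isEmpty]
      simp
    have h2 : coeff 0 (Matrix.permanent (Matrix.of fun i j : Fin m =>
        (X (i, j) : MvPolynomial (Fin m × Fin m) ℂ))) = 0 := by
      have hm0 : 0 < m := lt_of_lt_of_le (by norm_num) hm
      rw [← constantCoeff_eq]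
      unfold Matrix.permanent
      rw [map_sum]
      refine Finset.sum_eq_zero fun σ _ => ?_
      rw [map_prod]
      exact Finset.prod_eq_zero (Finset.mem_univ ⟨0, hm0⟩) (by simp)
    rw [h1, h2] at h0
    exact one_ne_zero (tendsto_nhds_unique tendsto_const_nhds h0)
  | succ M =>
    have := border_log m M hm ⟨A, hA, hlim⟩
    push_cast
    exact this

/-- The exact bound for affine forms over `ℂ`. -/
theorem affine_bound (m n : ℕ) (hm : 120 ^ 5 ≤ m)
    (A : Matrix (Fin n) (Fin n) (MvPolynomial (Fin m × Fin m) ℂ))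
    (hA : ∀ i j, (A i j).totalDegree ≤ 1)
    (hdet : A.det = Matrix.permanent (Matrix.of fun i j => X (i, j))) :
    (m : ℝ) ^ 2 * Real.log m / (960 * Real.log (Real.log m)) ≤ n :=
  border_bound m n hm (fun _ => A) (fun _ => hA) fun d => by
    rw [hdet]
    exact tendsto_const_nhds

/-- The bound for linear forms and the padded permanent. -/
theorem padded_bound (m n : ℕ) (hm : 120 ^ 5 ≤ m)
    (A : Matrix (Fin n) (Fin n) (MvPolynomial (Option (Fin m × Fin m)) ℂ))
    (hA : ∀ i j, (A i j).IsHomogeneous 1)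
    (hdet : A.det = X none ^ (n - m) *
      Matrix.permanent (Matrix.of fun i j => X (some (i, j)))) :
    (m : ℝ) ^ 2 * Real.log m / (960 * Real.log (Real.log m)) ≤ n := by
  classical
  set θ : Option (Fin m × Fin m) → MvPolynomial (Fin m × Fin m) ℂ := fun o =>
    o.elim 1 X with hθ
  have hθ1 : ∀ v, (θ v).totalDegree ≤ 1 := by
    rintro (_ | v)
    · simp [hθ]
    · simp [hθ]
  refine affine_bound m n hm (A.map (aeval θ)) (fun i j => ?_) ?_
  · exact le_trans (L5helper67.DC.totalDegree_aeval_le θ hθ1 _) ((hA i j).totalDegree_le)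
  · have h1 : (A.map (aeval θ)).det = aeval θ A.det := by
      rw [AlgHom.map_det]
      rfl
    rw [h1, hdet, map_mul, map_pow, aeval_X]
    have h2 : aeval θ (Matrix.permanent (Matrix.of fun i j : Fin m =>
        (X (some (i, j)) : MvPolynomial (Option (Fin m × Fin m)) ℂ))) =
        Matrix.permanent (Matrix.of fun i j => X (i, j)) := by
      unfold Matrix.permanent
      rw [map_sum]
      refine Finset.sum_congr rfl fun σ _ => ?_
      rw [map_prod]
      refine Finset.prod_congr rfl fun i _ => ?_
      simp [hθ]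
    rw [h2]
    simp [hθ]

end L5helper59.DC
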