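import Pool.Agent.L5helper59.DC.Final
import Pool.Agent.L5helper57.DC.Transfer

/-!
# A superquadratic lower bound for the determinantal complexity of the permanent

If the `m × m` permanent is the determinant of an `n × n` matrix of affine linear forms over a
field of characteristic zero, or over `ℂ` only a limit of such determinants, then
`n ≥ m ^ 2 log m / (960 log log m)` (`m ≥ 120 ^ 5`).

Proof.
1. If `F = det A` with affine forms in `k` variables, `A` of size `n`, then `F = 0` has few points
   at which the gradient is parallel to a given vector and which are nondegenerate. At such a point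
   `A` has corank one, so with kernel and cokernel vectors `v, u` one gets the nondegenerate
   zeros of `A(x) v = 0`, `uᵀ A(x) = 0`, `uᵀ A_w v = 0`, and the weighted Bezout inequality gives
   at most `(1 + ρ) ^ (2n - 1) 2 ^ (k - 1) ρ ^ (- k)` of them, for every `ρ > 0`, roughly
   `(4 e n / k) ^ k`.
2. Let `σ_r` be the sum of all `r × r` subpermanents. On matrices with `n' (q!)²` rows and `2 q`
   columns, `σ_{q+1}` minus a linear form has `((q!)²)! ^ n'` nondegenerate critical points: the rows
   of the points are the `(q!)²` vectors whose two halves are orderings of the `q`-th roots of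
   unity, each used `n'` times.
3. A sum of `σ_r` of about `m / (4 q)` disjoint blocks with `m / 2` rows is a projection of `perm_m`:
   border the blocks by a matrix of ones and by rows built from roots of unity. So the polynomial
   has about `m² / 4` variables and `(q / e) ^ (m² / 4)` critical points; hence `n ≥ c q m²` as soon
   as `m ≥ (q!) ^ 5`.
4. Nondegenerate points persist in limits.
-/

open Filter Topology

namespace L5helper59.DC.SuperquadraticBound

theorem superquadratic_bound.{u} (m : ℕ) (hm : 120 ^ 5 ≤ m) (n : ℕ) :
    (∀ (F : Type u) [Field F] [CharZero F]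
      (A : Matrix (Fin n) (Fin n) (MvPolynomial (Fin m × Fin m) F)),
      (∀ i j, (A i j).totalDegree ≤ 1) →
      A.det = Matrix.permanent (Matrix.of fun i j => MvPolynomial.X (i, j)) →
      (m : ℝ) ^ 2 * Real.log m / (960 * Real.log (Real.log m)) ≤ n) ∧
    (∀ A : ℕ → Matrix (Fin n) (Fin n) (MvPolynomial (Fin m × Fin m) ℂ),
      (∀ k i j, (A k i j).totalDegree ≤ 1) →
      (∀ d, Tendsto (fun k => MvPolynomial.coeff d (A k).det) atTop
        (𝓝 (MvPolynomial.coeff d (Matrix.permanent (Matrix.of fun i j : Fin m =>
          (MvPolynomial.X (i, j) : MvPolynomial (Fin m × Fin m) ℂ)))))) →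
      (m : ℝ) ^ 2 * Real.log m / (960 * Real.log (Real.log m)) ≤ n) := by
  refine ⟨fun F _ _ A hA hdet => ?_, fun A hA hlim =>
    L5helper59.DC.border_bound m n hm A hA hlim⟩
  obtain ⟨A', hA', hdet'⟩ := Pool.Agent.L5helper57.DC.transfer m n A hA hdet
  exact L5helper59.DC.affine_bound m n hm A' hA' hdet'

end L5helper59.DC.SuperquadraticBound
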